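import Pool.Agent.Mg.F5cfbf6.G9830bc

namespace Pool.Agent.Results.MP_616ade_gt.CarpetCounterexample

open Pool.Agent.MP_616ade_gt

universe u

/-- For every `d ≥ 1` there is a compact length space of covering dimension `d` which is not an
inverse limit of Minkowski `d`-polyhedra. -/
theorem result (d : ℕ) (hd : 1 ≤ d) :
    ∃ (X : Type) (_ : MetricSpace X), CompactSpace X ∧ IsLengthSpace X ∧ HasCoveringDim X d ∧
      ¬ IsInverseLimitOfMinkowskiPolyhedra.{u} d X :=
  main_all d hd

end Pool.Agent.Results.MP_616ade_gt.CarpetCounterexample
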