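import Pool.Agent.MP_616ade_gt.BallAll

namespace Pool.Agent.Results.MP_616ade_gt.CubeInfiniteRank

open Pool.Agent.MP_616ade_gt

universe u

/-- For every `d ≥ 3` there is a compact length space homeomorphic to the cube `[0,1]^d`, of
covering dimension `d`, which is not an inverse limit of Minkowski `k`-polyhedra for any `k`. -/
theorem result (d : ℕ) (hd : 3 ≤ d) :
    ∃ (X : Type) (_ : MetricSpace X), CompactSpace X ∧ IsLengthSpace X ∧
      Nonempty (X ≃ₜ Set.Icc (0 : Fin d → ℝ) 1) ∧ HasCoveringDim X d ∧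
      ∀ k : ℕ, ¬ IsInverseLimitOfMinkowskiPolyhedra.{u} k X :=
  Ball.main_ball d hd

end Pool.Agent.Results.MP_616ade_gt.CubeInfiniteRank
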